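import Pool.Agent.R409.RD.Cl
import Pool.Agent.R409.RD.Sh

/-!
# The order and the leading coefficient of `ζ_X(s)` at all integers from finite sums over closed points

Let `X` be a scheme of finite type over `Spec ℤ` of dimension `d` and `n` an integer. Soulé's conjecture
compares the order of `ζ_X(s)` at `s = n` with the ranks of higher Chow groups. The Euler product says
nothing on the behaviour at `s = n ≤ d`. We prove, assuming only that `ζ_X(s)` has a continuation which
is meromorphic on the real segment `[n, d]`, without any hypothesis on its zeros and without a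
functional equation: for `γ > π/2`, `θ > d - n`, `θ > 0` and `κ_γ(u) = e^{iγu} / Γ(1 + u)` the finite
sums over the closed points `x` of `X` and `k ≥ 1`

`V(T) = ∑ κ_γ(k log N(x) / T) N(x)^{-kn} / k`, `N(x)^k ≤ exp (exp (θ T))`,

satisfy `V(T) = log |l| - π i e - r (log T - Λ_γ) + O(1/T)`, where `r` and `l` are the order and the
leading coefficient of `ζ_X(s)` at `s = n`, and `e` is the number of its real zeros minus real poles to
the right of `n`. In particular the order is determined by `Re V(T_k) / log T_k` for any one sequence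
`T_k → ∞`, so that Soulé's formula for `X` and `n` is a statement on the norms of the closed points.
-/

set_option autoImplicit false

namespace Pool.Agent.Results.MP_666bea_ag.OrdersFromClosedPoints

open AlgebraicGeometry Filter Topology

section defs

/-- The closed points of `X`. -/
abbrev ClosedPt (X : Scheme.{0}) : Type := {x : X // IsClosed ({x} : Set X)}

/-- The norm `N(x)` of a closed point: the number of elements of the residue field. -/
noncomputable def norm (X : Scheme.{0}) (x : ClosedPt X) : ℕ := Nat.card (X.residueField x.1)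

/-- The residue fields of the closed points of `X` are finite, and `∑ N(x)^{-σ}` converges for `σ > d`.
By a theorem of Serre this holds for all schemes of finite type over `Spec ℤ` of dimension `d`. -/
def ConvergesRightOf (X : Scheme.{0}) (d : ℕ) : Prop :=
  (∀ x : ClosedPt X, Finite (X.residueField x.1)) ∧
    ∀ σ : ℝ, d < σ → Summable fun x : ClosedPt X => (norm X x : ℝ) ^ (-σ)

/-- The zeta function `ζ_X(s) = ∏_x (1 - N(x)^{-s})⁻¹`. -/
noncomputable def zeta (X : Scheme.{0}) (s : ℂ) : ℂ :=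
  ∏' x : ClosedPt X, (1 - (norm X x : ℂ) ^ (-s))⁻¹

/-- `F` is meromorphic at the points of the real segment `[n, d]`, and it is the zeta function for
`Re s > d`. -/
def IsContinuation (X : Scheme.{0}) (d : ℕ) (n : ℤ) (F : ℂ → ℂ) : Prop :=
  (∀ x : ℝ, n ≤ x → x ≤ d → MeromorphicAt F (x : ℂ)) ∧
    ∀ s : ℂ, d < s.re → F s = zeta X s

/-- The weight `κ_γ(u) = e^{iγu} / Γ(1 + u)`. -/
noncomputable def weight (γ u : ℝ) : ℂ :=
  Complex.exp (Complex.I * (γ * u)) / Complex.Gamma (1 + u)

/-- `V(T) = ∑ κ_γ(k log N(x) / T) N(x)^{-kn} / k`, the sum over the closed points `x` and the `k ≥ 1`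
with `N(x)^k ≤ exp (exp (θ T))`. -/
noncomputable def pointSum (X : Scheme.{0}) (n : ℤ) (γ θ T : ℝ) : ℂ :=
  ∑ᶠ z ∈ {z : ClosedPt X × ℕ | 1 ≤ z.2 ∧ (norm X z.1 : ℝ) ^ z.2 ≤ Real.exp (Real.exp (θ * T))},
    weight γ (z.2 * Real.log (norm X z.1) / T) * ((norm X z.1 : ℂ) ^ n)⁻¹ ^ z.2 / z.2

/-- `Λ_γ = ∫_0^∞ (e^{-t} - e^{iγt} / Γ(1 + t)) dt / t`. -/
noncomputable def lam (γ : ℝ) : ℂ :=
  ∫ t in Set.Ioi (0 : ℝ), (Real.exp (-t) - weight γ t) / t

/-- The number of the real zeros minus the number of the real poles of `F` to the right of `n`, with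
multiplicities. -/
noncomputable def excess (n : ℤ) (F : ℂ → ℂ) : ℤ :=
  ∑ᶠ x ∈ Set.Ioi (n : ℝ), (meromorphicOrderAt F (x : ℂ)).untop₀

end defs

section bridge

open Pool.Agent.R409.RC Pool.Agent.R409.RD

variable {X : Scheme.{0}} {d : ℕ} {n : ℤ} {F : ℂ → ℂ}

theorem weight_eq {γ u : ℝ} : weight γ u = Pool.Agent.W187.S2.kk γ u := by
  unfold weight Pool.Agent.W187.S2.kk Pool.Agent.W189.ML.om
  have h1 : Complex.Gamma (1 + u) = ((Real.Gamma (1 + u) : ℝ) : ℂ) := by
    rw [← Complex.Gamma_ofReal]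
    push_cast
    rfl
  rw [h1, div_eq_mul_inv]
  push_cast
  congr 2
  ring

theorem lam_eq (γ : ℝ) : lam γ = Pool.Agent.W187.UR.Lam γ := by
  unfold lam Pool.Agent.W187.UR.Lam
  refine MeasureTheory.integral_congr_ae (Filter.Eventually.of_forall fun t => ?_)
  simp only
  rw [weight_eq]
  unfold Pool.Agent.W187.S2.kk Pool.Agent.W189.ML.om
  push_cast
  rfl

/-- the norms as real numbers -/
noncomputable def qx (X : Scheme.{0}) (x : ClosedPt X) : ℝ := (norm X x : ℝ)

theorem cd (h : ConvergesRightOf X d) : CD (d : ℝ) (qx X) where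
  d_nonneg := Nat.cast_nonneg d
  two_le := fun x => by
    have := h.1 x
    unfold qx norm
    exact_mod_cast Finite.one_lt_card
  sum := h.2

theorem pointSum_eq (h : ConvergesRightOf X d) (γ θ T : ℝ) :
    pointSum X n γ θ T = gsum (Pool.Agent.W189.LC.fr (qx X)) (cC (n : ℝ) (qx X)) θ γ T := by
  rw [(cd h).gsum_eq]
  unfold pointSum
  refine finsum_mem_congr rfl fun z _ => ?_
  have hp : (0 : ℝ) < (norm X z.1 : ℝ) := (cd h).q_pos z.1
  have h1 : (((qx X z.1) ^ (-(n : ℝ)) : ℝ) : ℂ) = ((norm X z.1 : ℂ) ^ n)⁻¹ := by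
    unfold qx
    rw [Real.rpow_neg hp.le, Real.rpow_intCast]
    push_cast
    rfl
  unfold cterm
  rw [h1, weight_eq]
  unfold Pool.Agent.W187.S2.kk qx
  push_cast
  ring

end bridge

/-- **The order and the leading coefficient of `ζ_X(s)` at `s = n` from finite sums over the closed
points.** Let `X` be a scheme such that the residue fields of its closed points are finite and
`∑ N(x)^{-σ}` converges for `σ > d`, for example a scheme of finite type over `Spec ℤ` of dimension `d`.
Let `n` be an integer and `F` a continuation of `ζ_X(s)` which is meromorphic on the real segment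
`[n, d]`. Then `F` has a finite order `r` at `n` and a real leading coefficient `l ≠ 0`, and for all
`γ > π/2`, `θ > d - n`, `θ > 0`:

* `V(T) = log |l| - π i e - r (log T - Λ_γ) + O(1/T)`;
* for an integer `ρ` (for example the alternating sum of the ranks of the higher Chow groups):
  `- ord_{s=n} F = ρ` if and only if `Re V(T_k) / log T_k → ρ` for one sequence `T_k → ∞`;
* `F` has the order `ρ` and the leading coefficient `B ≠ 0` at `n` if and only if
  `T ^ ρ exp V(T) → B exp(ρ Λ_γ)`;
* `F(s) → b` for `s → n` if and only if `exp V(T) → b` for `T → ∞`. -/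
theorem result (X : Scheme.{0}) (d : ℕ) (_ : ConvergesRightOf X d) (n : ℤ) (F : ℂ → ℂ)
    (_ : IsContinuation X d n F) :
    ∃ (r : ℤ) (l : ℝ), l ≠ 0 ∧ meromorphicOrderAt F n = r ∧ meromorphicTrailingCoeffAt F n = l ∧
      ∀ γ θ : ℝ, Real.pi / 2 < γ → (d : ℝ) - n < θ → 0 < θ →
        (∃ C T₀ : ℝ, ∀ T : ℝ, T₀ ≤ T →
          ‖pointSum X n γ θ T -
            (Real.log |l| - Real.pi * Complex.I * excess n F - r * (Real.log T - lam γ))‖ ≤
              C / T) ∧
        (∀ ρ : ℤ, meromorphicOrderAt F n = (-ρ : ℤ) ↔ ∃ T : ℕ → ℝ, Tendsto T atTop atTop ∧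
          Tendsto (fun k => (pointSum X n γ θ (T k)).re / Real.log (T k)) atTop (𝓝 ρ)) ∧
        (∀ (ρ : ℤ) (B : ℝ), B ≠ 0 →
          ((meromorphicOrderAt F n = ρ ∧ meromorphicTrailingCoeffAt F n = B) ↔
            Tendsto (fun T : ℝ => (T : ℂ) ^ ρ * Complex.exp (pointSum X n γ θ T)) atTop
              (𝓝 (B * Complex.exp (ρ * lam γ))))) ∧
        ∀ b : ℂ, Tendsto F (𝓝[≠] (n : ℂ)) (𝓝 b) ↔
          Tendsto (fun T : ℝ => Complex.exp (pointSum X n γ θ T)) atTop (𝓝 b) := by
  rename_i hX hF
  have E := cd hX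
  have := E.countable
  have D := E.gd (n : ℝ) hF.1 fun s hs => by
    rw [hF.2 s hs]
    rfl
  obtain ⟨r, l, hl, hm, hlc, hexp, hlaw⟩ := D.law
  have h0 : (((n : ℝ) : ℝ) : ℂ) = (n : ℂ) := by push_cast; rfl
  rw [Pool.Agent.R409.RC.order_shift', add_zero, h0] at hm
  rw [Pool.Agent.R409.RC.coeff_shift', h0] at hlc
  have hexc : Pool.Agent.R409.RD.gexc (fun s => F (((n : ℝ) : ℂ) + s)) = excess n F :=
    Pool.Agent.R409.RD.gexc_shift (n : ℝ) F
  rw [hexc] at hexp hlaw
  have hmF : MeromorphicAt F (n : ℂ) := by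
    have h1 := D.mer (x := 0) le_rfl
    have h2 : F = fun s => (fun s => F (((n : ℝ) : ℂ) + s)) (s - (n : ℂ)) := by
      funext s
      simp
    rw [h2]
    refine MeromorphicAt.comp_analyticAt (f := fun s => F (((n : ℝ) : ℂ) + s))
      (g := fun w : ℂ => w - (n : ℂ)) ?_ (by fun_prop)
    simpa using h1
  refine ⟨r, l, hl, hm, hlc, fun γ θ hγ hθ hθ0 => ?_⟩
  have hL := hlaw γ θ hγ hθ hθ0
  refine ⟨?_, fun ρ => ?_, fun ρ B hB => ?_, fun b => ?_⟩
  · obtain ⟨C, T₀, hC, hT₀, hT⟩ := hL
    refine ⟨C, T₀, fun T h => ?_⟩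
    rw [pointSum_eq hX, lam_eq]
    refine le_trans (le_of_eq ?_) (hT T h)
    congr 1
    ring
  · rw [hm]
    simp only [pointSum_eq hX]
    have h1 := hL.iff_seq (-(ρ : ℝ))
    rw [neg_neg] at h1
    constructor
    · intro h2
      refine h1.1 ?_
      have h3 : r = -ρ := by exact_mod_cast h2
      rw [h3]
      push_cast
      rfl
    · intro h2
      have h3 := h1.2 h2
      have h4 : r = -ρ := by exact_mod_cast h3
      rw [h4]
  · rw [hm, hlc]
    simp only [pointSum_eq hX, lam_eq]
    have hBc : (B : ℂ) ≠ 0 := by exact_mod_cast hB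
    have h1 := hL.iff_exp ρ hBc
    rw [hexp] at h1
    constructor
    · rintro ⟨h2, h3⟩
      refine (h1.1 ⟨by exact_mod_cast h2, h3⟩).congr fun T => ?_
      rw [mul_comm]
    · intro h2
      obtain ⟨h3, h4⟩ := h1.2 (h2.congr fun T => by rw [mul_comm])
      exact ⟨by rw [h3], h4⟩
  · simp only [pointSum_eq hX]
    exact Pool.Agent.R409.RD.value_iff hL hmF hm (by rw [hexp, hlc]) b

end Pool.Agent.Results.MP_666bea_ag.OrdersFromClosedPoints
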